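import Pool.Agent.Helper64.FL.StH

set_option autoImplicit false

/-!
MP_866009_co, module ALT: the values of a solution of the Naji system alternate along an arc.
-/

namespace Pool.Agent.Helper64.FL

open Pool.Agent.Helper64.CT Pool.Agent.Helper64.DT
open Pool.Agent.Helper64.HG (Ovl Model Circ IC HellyCircle ChordModel)

theorem alt_step {V : Type} {G : SimpleGraph V} {S : Set V} {u v w : V} (h : Cn G S u v)
    (hvw : G.Adj v w) (hw : w ∈ S) : Cn G S u w :=
  ⟨h.1, h.2.tail ⟨hvw, hw⟩⟩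

theorem alt_mem {V : Type} {G : SimpleGraph V} {S : Set V} {u v : V} (h : Cn G S u v) : v ∈ S := by
  obtain ⟨h1, h2⟩ := h
  induction h2 with
  | refl => exact h1
  | tail _ h => exact h.2

theorem alt_symm {V : Type} {G : SimpleGraph V} {S : Set V} {u v : V} (h : Cn G S u v) :
    Cn G S v u := by
  obtain ⟨h1, h2⟩ := h
  induction h2 with
  | refl => exact ⟨h1, Relation.ReflTransGen.refl⟩
  | @tail p q hp hq ih =>
    have hpS : p ∈ S := alt_mem ⟨h1, hp⟩
    exact ⟨hq.2, Relation.ReflTransGen.head ⟨hq.1.symm, hpS⟩ ih.2⟩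

theorem alt_trans {V : Type} {G : SimpleGraph V} {S : Set V} {u v w : V} (h : Cn G S u v)
    (h' : Cn G S v w) : Cn G S u w :=
  ⟨h.1, h.2.trans h'.2⟩

theorem alt_path0 {V : Type} {G : SimpleGraph V} {S : Set V} : ∀ (l : List V) (c : V),
    IPt G (c :: l) → c ∈ S → (∀ u ∈ l, u ∈ S) → ∀ u ∈ l, Cn G S c u := by
  intro l
  induction l with
  | nil => intro c _ _ _ u hu; exact absurd hu (by simp)
  | cons d l ih =>
    intro c hI hc hS u hu
    obtain ⟨_, h2, _, h4⟩ := hI
    have hcd : G.Adj c d := h2 d (by simp)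
    have hd : d ∈ S := hS d (by simp)
    have h0 : Cn G S c d := ⟨hc, Relation.ReflTransGen.single ⟨hcd, hd⟩⟩
    rcases List.mem_cons.1 hu with rfl | hu
    · exact h0
    · exact alt_trans h0 (ih d h4 hd (fun v hv => hS v (List.mem_cons_of_mem _ hv)) u hu)

theorem alt_path {V : Type} {G : SimpleGraph V} {S : Set V} (l : List V) (hl : IPt G l)
    (hS : ∀ u ∈ l, u ∈ S) : ∀ u ∈ l, ∀ w ∈ l, Cn G S u w := by
  cases l with
  | nil => intro u hu; exact absurd hu (by simp)
  | cons c l =>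
    have h0 : ∀ u ∈ c :: l, Cn G S c u := by
      intro u hu
      have hc : c ∈ S := hS c (by simp)
      rcases List.mem_cons.1 hu with rfl | hu
      · exact ⟨hc, Relation.ReflTransGen.refl⟩
      · exact alt_path0 l c hl hc (fun v hv => hS v (List.mem_cons_of_mem _ hv)) u hu
    intro u hu w hw
    exact alt_trans (alt_symm (h0 u hu)) (h0 w hw)

theorem st_ALT (hN : ST_NJC) (hO : ST_OVL) : ST_ALT := by
  intro V G S b hb x n P a m hA hS
  have hx : x ∈ S := hS (Or.inl rfl)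
  have hn : ∀ i, a ≤ i → i ≤ m → n i ∈ S := fun i h1 h2 => hS (Or.inr (Or.inl ⟨i, h1, h2, rfl⟩))
  have hP : ∀ i, a ≤ i → i < m → ∀ u ∈ P i, u ∈ S :=
    fun i h1 h2 u hu => hS (Or.inr (Or.inr ⟨i, h1, h2, hu⟩))
  have part1 : ∀ i, a ≤ i → i < m → ∀ u ∈ P i, ∀ w ∈ P i, b x u = b x w := by
    intro i h1 h2 u hu w hw
    refine hN V G S b hb x hx u w ?_
    exact alt_path (S := S ∩ Far G x) (P i) (hA.ip i h1 h2)
      (fun v hv => ⟨hP i h1 h2 v hv, hA.far i h1 h2 v hv⟩) u hu w hw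
  refine ⟨part1, ?_⟩
  intro i h1 h2 u hu w hw
  have hi : i < m := by omega
  have hi1 : a ≤ i + 1 := by omega
  -- the two vertices next to `n (i+1)`
  obtain ⟨v, hv⟩ : ∃ v, (P i).getLast? = some v := by
    cases h : (P i).getLast? with
    | none => exact absurd (List.getLast?_eq_none_iff.1 h) (hA.ne i h1 hi)
    | some v => exact ⟨v, rfl⟩
  obtain ⟨w0, hw0⟩ : ∃ v, (P (i + 1)).head? = some v := by
    cases h : (P (i + 1)).head? with
    | none => exact absurd (List.head?_eq_none_iff.1 h) (hA.ne (i + 1) hi1 h2)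
    | some v => exact ⟨v, rfl⟩
  obtain ⟨v', hv'⟩ : ∃ v, (P i).head? = some v := by
    cases h : (P i).head? with
    | none => exact absurd (List.head?_eq_none_iff.1 h) (hA.ne i h1 hi)
    | some v => exact ⟨v, rfl⟩
  obtain ⟨w', hw'⟩ : ∃ v, (P (i + 1)).getLast? = some v := by
    cases h : (P (i + 1)).getLast? with
    | none => exact absurd (List.getLast?_eq_none_iff.1 h) (hA.ne (i + 1) hi1 h2)
    | some v => exact ⟨v, rfl⟩
  have mv : v ∈ P i := List.mem_of_getLast? hv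
  have mv' : v' ∈ P i := List.mem_of_head? hv'
  have mw : w0 ∈ P (i + 1) := List.mem_of_head? hw0
  have mw' : w' ∈ P (i + 1) := List.mem_of_getLast? hw'
  have anv : G.Adj (n (i + 1)) v := (hA.lst i h1 hi v mv).2 hv
  have anv' : G.Adj (n i) v' := (hA.fst i h1 hi v' mv').2 hv'
  have anw : G.Adj (n (i + 1)) w0 := (hA.fst (i + 1) hi1 h2 w0 mw).2 hw0
  have anw' : G.Adj (n (i + 2)) w' := (hA.lst (i + 1) hi1 h2 w' mw').2 hw'
  have fv : v ∈ Far G x := hA.far i h1 hi v mv
  have fw : w0 ∈ Far G x := hA.far (i + 1) hi1 h2 w0 mw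
  have sep := hA.sep i (i + 1) h1 (by omega) h2
  have xn : ∀ j, a ≤ j → j ≤ m → G.Adj x (n j) := hA.xn
  have hxv : x ∈ Far G v := ⟨fun h => fv.1 h.symm, fun h => fv.2 h.symm⟩
  have hxw : x ∈ Far G w0 := ⟨fun h => fw.1 h.symm, fun h => fw.2 h.symm⟩
  have c1 : Cn G (S ∩ Far G v) w0 x := by
    have d1 : Cn G (S ∩ Far G v) w0 w' := by
      refine alt_path (P (i + 1)) (hA.ip (i + 1) hi1 h2) ?_ w0 mw w' mw'
      intro z hz
      exact ⟨hP (i + 1) hi1 h2 z hz, fun h => (sep v mv z hz).1 h.symm, (sep v mv z hz).2⟩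
    have d2 : n (i + 2) ∈ S ∩ Far G v := by
      refine ⟨hn (i + 2) (by omega) (by omega), ?_, ?_⟩
      · intro h
        exact fv.2 (h ▸ xn (i + 2) (by omega) (by omega))
      · intro h
        exact hA.cln i (i + 2) h1 hi (by omega) (by omega) (by omega) (by omega) v mv h.symm
    have d3 : x ∈ S ∩ Far G v := ⟨hx, hxv⟩
    exact alt_step (alt_step d1 anw'.symm d2) (xn (i + 2) (by omega) (by omega)).symm d3
  have c2 : Cn G (S ∩ Far G w0) v x := by
    have d1 : Cn G (S ∩ Far G w0) v v' := by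
      refine alt_path (P i) (hA.ip i h1 hi) ?_ v mv v' mv'
      intro z hz
      exact ⟨hP i h1 hi z hz, (sep z hz w0 mw).1, fun h => (sep z hz w0 mw).2 h.symm⟩
    have d2 : n i ∈ S ∩ Far G w0 := by
      refine ⟨hn i h1 (by omega), ?_, ?_⟩
      · intro h
        exact fw.2 (h ▸ xn i h1 (by omega))
      · intro h
        exact hA.cln (i + 1) i hi1 h2 h1 (by omega) (by omega) (by omega) w0 mw h.symm
    have d3 : x ∈ S ∩ Far G w0 := ⟨hx, hxw⟩
    exact alt_step (alt_step d1 anv'.symm d2) (xn i h1 (by omega)).symm d3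
  have key : b x v ≠ b x w0 :=
    hO V G S b hb (n (i + 1)) (hn (i + 1) hi1 (by omega)) x hx v (hP i h1 hi v mv) w0
      (hP (i + 1) hi1 h2 w0 mw) (xn (i + 1) hi1 (by omega)).symm anv anw (sep v mv w0 mw).1
      (sep v mv w0 mw).2 c1 c2
  intro h
  apply key
  rw [part1 i h1 hi v mv u hu, h, part1 (i + 1) hi1 h2 w hw w0 mw]

end Pool.Agent.Helper64.FL
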