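import Pool.Agent.Helper64.FL.StH

set_option autoImplicit false

/-!
MP_866009_co, module B5: in a reduced graph with (CI) without the configurations of three
conflicting components, (CII) fails only for ladders and rings.
-/

namespace Pool.Agent.Helper64.FL

open Pool.Agent.Helper64.CT Pool.Agent.Helper64.DT
open Pool.Agent.Helper64.HG (Ovl Model Circ IC HellyCircle ChordModel)

theorem st_B5 (hB : ST_B3) (hM : ST_MOC) (hT : ST_TCH) (hD : ST_D2D) (h1 : ST_D1M)
    (hN : ST_NKM) : ST_B5 := by
  intro V G hR hC hP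
  by_cases h : CII G
  · exact Or.inl h
  · obtain ⟨x, k, y, hy⟩ := hM V G (hB V G hP hC) h
    obtain ⟨z, hz, h2 | ⟨h2, h3, h4⟩ | ⟨h2, h3⟩⟩ := hT V G x k y hy
    · exact Or.inr (Or.inr (hN V G x k z hR hC hz h2))
    · exact (hD V G x k z hR hz h2 h3 h4).elim
    · exact Or.inr (Or.inl (h1 V G x k z hR hC hz h2 h3))

end Pool.Agent.Helper64.FL
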