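import Pool.Agent.Helper64.FL.StH

set_option autoImplicit false

/-!
MP_866009_co, module D1S: a shortest path between mixed vertices in the dominating component.
-/

namespace Pool.Agent.Helper64.FL

open Pool.Agent.Helper64.CT Pool.Agent.Helper64.DT
open Pool.Agent.Helper64.HG (Ovl Model Circ IC HellyCircle ChordModel)

theorem st_D1S (hS : ST_SPN) (hC : ST_CNB) : ST_D1S := by
  intro V G x k y hM hD hd hu
  obtain ⟨c1, c2, _, _, _, c6, _⟩ := hC V G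
  obtain ⟨_, ⟨v, hv, hvm⟩, _⟩ := hM.cf 0
  have hk : 1 ≤ k := le_trans (by decide) hM.k5
  have h0 := hM.cf (k - 1)
  have e1 : y (k - 1 + 1) = y 0 := by
    have h2 := hM.per 0
    rw [Nat.sub_add_cancel hk]
    rw [Nat.zero_add] at h2
    exact h2
  rw [e1] at h0
  obtain ⟨_, _, ⟨w, hw, hwm⟩⟩ := h0
  rw [Nat.zero_add] at hvm
  have h1 : Cn G (KC G x (y 0)) (y 0) w := c6 x (y 0) w hw
  have h2 : Cn G (KC G x (y 0)) (y 0) v := c6 x (y 0) v hv
  have h3 : Cn G (KC G x (y 0)) w v := c2 _ _ _ _ (c1 _ _ _ h1).2 h2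
  obtain ⟨u0, M, um, m0, s0, m1, s1, hP, hI, hne⟩ :=
    hS V G (KC G x (y 0)) {u | Mixed G u (Att G x (y (k - 1)))} {u | Mixed G u (Att G x (y 1))}
      ⟨w, hwm, v, hvm, h3⟩
  exact ⟨u0, M, um, ⟨hM, hD, hd, hu, ⟨s0, s1, fun u hu => (hI u hu).1, hP⟩, m0, m1,
    fun u hu => ⟨(hI u hu).2.2, (hI u hu).2.1⟩, fun h => hne h⟩⟩

end Pool.Agent.Helper64.FL
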