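import Pool.Agent.Helper64.FL.StC

/-! Full list for MP_866009_co: all signs different, the cycle covers the graph. -/

set_option autoImplicit false

namespace Pool.Agent.Helper64.FL

open Pool.Agent.Helper64.CT Pool.Agent.Helper64.DT
open Pool.Agent.Helper64.HG (Ovl Model Circ IC HellyCircle ChordModel)

/-- the ends of an induced path are connected inside every set containing the path -/
theorem hca_cnl {V : Type} (G : SimpleGraph V) (S : Set V) : ∀ (l : List V) (a b : V), IPt G l →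
    l.head? = some a → l.getLast? = some b → (∀ x ∈ l, x ∈ S) → Cn G S a b := by
  intro l
  induction l with
  | nil => intro a b _ h _ _; simp at h
  | cons c l ih =>
    intro a b hp hh hl hS
    have hca : c = a := by simpa using hh
    subst hca
    cases l with
    | nil =>
      have hcb : c = b := by simpa using hl
      subst hcb
      exact ⟨hS c (by simp), Relation.ReflTransGen.refl⟩
    | cons e l =>
      have h1 := hp.2.1
      have h2 : G.Adj c e := h1 e (by simp)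
      have h3 := ih e b hp.2.2.2 (by simp) (by simpa using hl) (fun x hx => hS x (by simp at hx ⊢; tauto))
      exact ⟨hS c (by simp), Relation.ReflTransGen.head ⟨h2, h3.1⟩ h3.2⟩

theorem hca_far {V : Type} (G : SimpleGraph V) (x y : V) (h : x ∈ Far G y) : y ∈ Far G x :=
  ⟨fun e => h.1 e.symm, fun e => h.2 e.symm⟩

theorem st_HCA (hB : ST_BCF) (hR : ST_RCY) (hX : ST_XSB) (hA : ST_RAY) (hC : ST_CNB) :
    ST_HCA := by
  intro V G Q σ E m q P u w B m4 mev hσ v
  by_contra hv
  have hvS : v ∉ {x | (∃ i, x = q i) ∨ ∃ i, x ∈ P i} := hv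
  obtain ⟨S, hS⟩ : ∃ S : Set V, S = {x | (∃ i, x = q i) ∨ ∃ i, x ∈ P i} := ⟨_, rfl⟩
  rw [← hS] at hvS
  -- the Naji system has a solution on `S`
  have hN : NAJ G S := by
    obtain ⟨b, b1, b2, b3⟩ := E.red.naj v
    have hne : ∀ x ∈ S, x ∈ {z : V | z ≠ v} := fun x hx e => hvS (e ▸ hx)
    refine ⟨b, ?_, ?_, ?_⟩
    · intro x hx y hy
      exact b1 x (hne x hx) y (hne y hy)
    · intro c hc x hx y hy
      exact b2 c (hne c hc) x (hne x hx) y (hne y hy)
    · intro n hn x hx y hy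
      exact b3 n (hne n hn) x (hne x hx) y (hne y hy)
  obtain ⟨cnsymm, cntr, cnmono, cnadj, -, -, -⟩ := hC V G
  obtain ⟨ray1, -, -, -, -, -⟩ := hA V G Q E.red.df E.mx
  obtain ⟨-, -, -, -, hAn⟩ := hB V G Q σ E m q P u w B
  have qQ : ∀ i, q i ∈ Q := fun i => (B.rU i).1
  have qadj : ∀ i j, q i ≠ q j → G.Adj (q i) (q j) := fun i j h => E.mx.1 _ (qQ i) _ (qQ j) h
  have ufar : ∀ i j, q j ≠ q i → u i ∈ Far G (q j) := fun i j h =>
    (ray1 (q i) (u i) (q j) (B.rU i) (qQ j) h).1
  have wfar : ∀ i j, q j ≠ q i → w i ∈ Far G (q j) := fun i j h =>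
    (ray1 (q i) (w i) (q j) (B.rW i) (qQ j) h).1
  have uP : ∀ i, u i ∈ P i := fun i => List.mem_of_mem_head? (by rw [B.hd i]; rfl)
  have wP : ∀ i, w (i + 1) ∈ P i := fun i => List.mem_of_mem_getLast? (by rw [B.lt i]; rfl)
  have qS : ∀ i, q i ∈ S := fun i => by rw [hS]; exact Or.inl ⟨i, rfl⟩
  have PS : ∀ i, ∀ x ∈ P i, x ∈ S := fun i x hx => by rw [hS]; exact Or.inr ⟨i, hx⟩
  have wP' : ∀ i, w i ∈ P (i + m - 1) := by
    intro i
    have h := wP (i + m - 1)
    have e : i + m - 1 + 1 = i + m := by omega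
    rw [e, B.pw] at h
    exact h
  have PFar : ∀ i j, q j ≠ q i → q j ≠ q (i + 1) → ∀ x ∈ P i, x ∈ Far G (q j) := by
    intro i j h1 h2 x hx
    have hz := (B.zz i x hx).1
    exact ⟨fun e => hz.1 (e ▸ qQ j), hz.2 (q j) (qQ j) h1 h2⟩
  have hd : RCd G S m q u w (fun _ => true) := by
    refine ⟨by omega, B.pq, B.pu, B.pw, fun _ => rfl, ?_, ?_, ?_, ?_, ?_⟩
    · intro i
      exact ⟨qS i, PS i _ (uP i), PS _ _ (wP' i)⟩
    · intro i
      exact ⟨(B.rU i).2.1, (B.rW i).2.1⟩
    · intro i j hij hj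
      have hne : q i ≠ q j := B.inj i j hij hj
      exact ⟨qadj i j hne, ufar i j hne.symm, wfar i j hne.symm⟩
    · intro i j hij hj
      have h1 : q i ≠ q j := B.inj i j (by omega) hj
      have h2 : q (i + 1) ≠ q j := B.inj (i + 1) j hij (by omega)
      exact hca_cnl G _ (P i) (u i) (w (i + 1)) (B.ip i) (B.hd i) (B.lt i)
        (fun x hx => ⟨PS i x hx, PFar i j h1.symm h2.symm x hx⟩)
    · intro i
      have hA1 : Anti G {v | v ∈ P (i + m - 1)} {v | v ∈ P i} := by
        have e : i + m - 1 + 1 = i + m := by omega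
        have h := hAn (i + m - 1) m4 (by rw [e]; exact (hσ (i + m)).symm)
        rw [e, B.pP] at h
        exact h
      have hq1 : q i ≠ q (i + 1) := B.inj i (i + 1) (by omega) (by omega)
      have hq2 : q i ≠ q (i + m - 1) := B.inj i (i + m - 1) (by omega) (by omega)
      have hq3 : q (i + 1) ≠ q (i + m - 1) := B.inj (i + 1) (i + m - 1) (by omega) (by omega)
      have hwu := hA1 (w i) (wP' i) (u i) (uP i)
      refine ⟨i + 1, by omega, by omega, Or.inr ⟨rfl, hwu.1, hwu.2, ?_, ?_⟩⟩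
      · have h1 : Cn G (S ∩ Far G (w i)) (u i) (w (i + 1)) :=
          hca_cnl G _ (P i) (u i) (w (i + 1)) (B.ip i) (B.hd i) (B.lt i)
            (fun x hx => ⟨PS i x hx, ⟨fun e => (hA1 (w i) (wP' i) x hx).1 e.symm,
              (hA1 (w i) (wP' i) x hx).2⟩⟩)
        have h2 : q (i + 1) ∈ S ∩ Far G (w i) :=
          ⟨qS _, hca_far G _ _ (wfar i (i + 1) hq1.symm)⟩
        have h3 := (cnsymm _ _ _ h1).1
        exact cntr _ _ _ _ h1 (cnadj _ _ _ h3 h2 (B.rW (i + 1)).2.1.symm)
      · have hl : (P (i + m - 1)).getLast? = some (w i) := by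
          have h := B.lt (i + m - 1)
          have e : i + m - 1 + 1 = i + m := by omega
          rw [e, B.pw] at h
          exact h
        have h1 : Cn G (S ∩ Far G (u i)) (u (i + m - 1)) (w i) :=
          hca_cnl G _ (P (i + m - 1)) (u (i + m - 1)) (w i) (B.ip _) (B.hd _) hl
            (fun x hx => ⟨PS _ x hx, ⟨(hA1 x hx (u i) (uP i)).1,
              fun e => (hA1 x hx (u i) (uP i)).2 e.symm⟩⟩)
        have h2 : q (i + m - 1) ∈ S ∩ Far G (u i) :=
          ⟨qS _, hca_far G _ _ (ufar i (i + m - 1) hq2.symm)⟩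
        have h3 : q (i + 1) ∈ S ∩ Far G (u i) :=
          ⟨qS _, hca_far G _ _ (ufar i (i + 1) hq1.symm)⟩
        have h4 := (cnsymm _ _ _ h1).2
        have h5 := h1.1
        exact cntr _ _ _ _ h4 (cntr _ _ _ _ (cnadj _ _ _ h5 h2 (B.rU (i + m - 1)).2.1.symm)
          (cnadj _ _ _ h2 h3 (qadj _ _ hq3.symm)))
  refine hR V G S m q u w _ hd ?_ hN
  rw [(hX (fun _ => true) (fun _ => true) m).2.2.2.2.2]
  have : ¬ Odd m := by
    rw [Nat.not_odd_iff_even]
    exact mev
  simpa using this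

end Pool.Agent.Helper64.FL
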