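import Pool.Agent.Helper64.FL.StG

set_option autoImplicit false

/-!
MP_866009_co, module NRX: path in a component from a vertex to the nearest neighbour of an
attachment.
-/

namespace Pool.Agent.Helper64.FL

open Pool.Agent.Helper64.CT Pool.Agent.Helper64.DT
open Pool.Agent.Helper64.HG (Ovl Model Circ IC HellyCircle ChordModel)

theorem st_NRX (hC : ST_CNB) (hS : ST_SPN) : ST_NRX := by
  intro V G x y l b hl hb
  obtain ⟨c1, c2, _, _, _, c6, _⟩ := hC V G
  obtain ⟨_, z, hz, hbz⟩ := hb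
  have h1 : Cn G (KC G x y) y l := c6 x y l hl
  have h2 : Cn G (KC G x y) y z := c6 x y z hz
  have h3 : Cn G (KC G x y) l z := c2 _ _ _ _ (c1 _ _ _ h1).2 h2
  obtain ⟨u, M, r, hu, huS, hr, hrS, hP, hM, hne⟩ :=
    hS V G (KC G x y) {l} {w | G.Adj w b} ⟨l, rfl, z, hbz.symm, h3⟩
  have hul : u = l := hu
  subst hul
  exact ⟨M, r, ⟨huS, hrS, fun w hw => (hM w hw).1, hP, hr, fun w hw => (hM w hw).2.2,
    fun h => (hne h).1⟩⟩

end Pool.Agent.Helper64.FL
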