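import Pool.Agent.Helper64.FL.StH

set_option autoImplicit false

/-!
MP_866009_co, module PRP: domination of components is inherited along conflicts.
-/

namespace Pool.Agent.Helper64.FL

open Pool.Agent.Helper64.CT Pool.Agent.Helper64.DT
open Pool.Agent.Helper64.HG (Ovl Model Circ IC HellyCircle ChordModel)

theorem st_PRP : ST_PRP := by
  intro V G x a b d hL hC hN hn
  obtain ⟨⟨n, hna, hxn, u, hu, hnu⟩, hL2⟩ := hL
  have hall : ∀ m ∈ Att G x a, G.Adj u m := by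
    intro m hm
    by_contra h
    exact hL2 u hu ⟨⟨n, hna, hnu.symm⟩, ⟨m, hm, h⟩⟩
  have hsub : ∀ m ∈ Att G x a, m ∈ Att G x b := fun m hm => ⟨hm.1, u, hu, (hall m hm).symm⟩
  obtain ⟨_, _, ⟨v, hv, ⟨n1, h1, h1'⟩, ⟨n2, h2, h2'⟩⟩⟩ := hC
  refine ⟨⟨n1, ⟨h1.1, v, hv, h1'.symm⟩, hsub n1 h1⟩, ?_⟩
  intro w hw hm
  exact hN ⟨hn, ⟨v, hv, ⟨n1, hsub n1 h1, h1'⟩, ⟨n2, hsub n2 h2, h2'⟩⟩, ⟨w, hw, hm⟩⟩

end Pool.Agent.Helper64.FL
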